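import Pool.Agent.Helper52.C2.Goals

/-!
PROJECT C2, packet C2-FIN: `GoalLc` and `GoalFinal`.
-/

namespace Pool.Agent.Helper8.C2

open LaurentPolynomial
open Pool.Agent.Helper52.C2

/-- log-concavity of the closure of a tangle in HH1 -/
theorem lc_hh1 (hpre : GoalPre) (hop : GoalOpTwo) (S : Tg) (hS : S.HH1) (i : ℤ) :
    S.F.coeff (i + 1) * S.F.coeff (i - 1) ≤ S.F.coeff i ^ 2 := by
  have hh : ∀ j : ℤ, S.h ((0 : ℕ) : ℤ) j = S.F.coeff j := by
    intro j
    unfold Tg.h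
    rw [hpre.1 S j, Nat.cast_zero, sub_zero]
  have key := hop Unit (S.win 0 (i - 1)) rfl
    (by
      show 0 ≤ S.h ((0 : ℕ) : ℤ) (i - 1 + 2)
      rw [hh]
      exact hS.nonneg.F _)
    _ trivial trivial (hS.win 0 (i - 1))
  have e1 : S.win 0 (i - 1) .X .X = S.F.coeff (i + 1) := by
    show S.h ((0 : ℕ) : ℤ) (i - 1 + 2) = _
    rw [hh, show i - 1 + 2 = i + 1 by ring]
  have e2 : S.win 0 (i - 1) .X .Y = S.F.coeff i := by
    show S.h ((0 : ℕ) : ℤ) (i - 1 + 1) = _
    rw [hh, show i - 1 + 1 = i by ring]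
  have e3 : S.win 0 (i - 1) .Y .Y = S.F.coeff (i - 1) := by
    show S.h ((0 : ℕ) : ℤ) (i - 1) = _
    rw [hh]
  rw [e1, e2, e3] at key
  exact key

theorem geo_one : geo 1 = 1 := by
  unfold geo
  simp

/-- GoalLc -/
theorem goalLc : GoalLc := by
  intro hpre hop hcross
  refine ⟨fun S hS i => lc_hh1 hpre hop S hS i, fun A B hG i => ?_⟩
  have h := lc_hh1 hpre hop (bes A B (U 1)) (hG _ hcross) i
  have e : (bes A B (U 1)).F = B := by
    show B * geo 1 = B
    rw [geo_one, mul_one]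
  rw [e] at h
  exact h

open Pool.Agent.Helper37.Arb Polynomial in
/-- GoalFinal -/
theorem goalFinal : GoalFinal := by
  intro hlau hsupp hclass hlc s t ht u
  have hseq := hlau.2.2.2.2
  have hclose := Pool.Agent.Helper19.Arb.close Pool.Agent.Helper96.Arb.index
    Pool.Agent.Helper49.Arb.cofactor Pool.Agent.Helper94.Arb.detOne
  cases s with
  | true =>
    obtain ⟨j, hj⟩ := resp_all.1 t
    have hd2 := Pool.Agent.Helper39.Arb.data2 t
    have hv : Vals t.data.l t.data.r t.data.f := by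
      intro x hx
      obtain ⟨h1, h2, h3, _, _, _⟩ := hd2.2 x hx
      refine ⟨h1, h2, h3, ?_⟩
      have h := congrArg (fun p : ℤ[X] => (aeval x p : ℝ)) hd2.1
      simpa [Data.l, Data.r, Data.f] using h
    obtain ⟨k, hk⟩ := hclose.1 t j hv hj
    obtain ⟨k', _, h0, h1⟩ := hsupp.1 t
    obtain ⟨S, hS, _, _, hF⟩ := hclass.1 t ht
    refine final_of_lci Pool.Agent.Helper54.Arb.coeff (hk u) ((hd2.2 1 one_pos).2.2.1)
      ⟨k', t.data.N - 1 - k', h0, h1, fun i => ?_⟩
    have := hlc.1 S hS i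
    rw [hF] at this
    simp only [hseq] at this
    exact this
  | false =>
    obtain ⟨j, hj⟩ := resp_all.2 t
    have hd1 := Pool.Agent.Helper39.Arb.data1 t
    obtain ⟨k, hk⟩ := hclose.2 t j (fun x hx => ⟨(hd1 x hx).1, (hd1 x hx).2.1⟩) hj
    obtain ⟨k', _, h0, h1⟩ := hsupp.2 t
    refine final_of_lci Pool.Agent.Helper54.Arb.coeff (hk u) ((hd1 1 one_pos).2.1)
      ⟨k', t.data.N - 1 - k', h0, h1, fun i => ?_⟩
    have := hlc.2 _ _ (hclass.2 t ht) i
    simp only [hseq] at this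
    exact this

end Pool.Agent.Helper8.C2
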